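import Pool.Agent.Helper83.EIN2.Goals

/-!
# Project EIN2, packet NB: bounds for a near pair
-/

set_option autoImplicit false

namespace Pool.Agent.Helper36.EIN2

open Pool.Agent.Helper83.EIN Pool.Agent.Helper83.EIN2

/-- The bounds for one triangle with the small side `u`. -/
theorem one_cs {m u y y' : ℝ} (hm : 0 < m) (hu : 0 < u) (hy : m / 2 ≤ y) (hy' : m / 2 ≤ y')
    (hT : Tri u y y') : 0 ≤ 1 - cs y y' u ∧ 1 - cs y y' u ≤ 2 / m ^ 2 * u ^ 2 := by
  have h1 : 0 < y := by linarith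
  have h2 : 0 < y' := by linarith
  constructor
  · have := cs_le h1 h2 hu hT.rot
    linarith
  · rw [one_sub_cs h1 h2, div_le_iff₀ (by positivity)]
    have e1 : (u - y + y') * (u + y - y') ≤ u ^ 2 := by nlinarith [sq_nonneg (y - y')]
    have e2 : m / 2 * (m / 2) ≤ y * y' := mul_le_mul hy hy' (by linarith) (by linarith)
    have e3 : u ^ 2 = 2 / m ^ 2 * u ^ 2 * (2 * (m / 2 * (m / 2))) := by field_simp
    have e4 : 0 ≤ 2 / m ^ 2 * u ^ 2 := by positivity
    nlinarith [mul_le_mul_of_nonneg_left e2 e4]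

theorem sum_cs {u y y' : ℝ} (hu : 0 < u) (hy : 0 < y) (hy' : 0 < y') :
    u * (cs u y' y + cs u y y') = (1 - cs y y' u) * (y + y') := by
  have e1 := proj hu hy hy'
  have e2 := proj hu hy' hy
  rw [Pool.Agent.Helper83.EIN2.cs_comm y' y] at e2
  linear_combination -e1 - e2

theorem nb (hBD : BD) : NB := by
  intro a₀ β₀ L ha0 ha1 hb0 hb1 hL0 hL
  obtain ⟨m, hm, hmL⟩ : ∃ m > 0, ∀ i, i ≠ 0 → m ≤ L i := by
    refine ⟨min (min (L 1) (L 2)) (min (min (L 3) (L 4)) (L 5)), ?_, ?_⟩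
    · exact lt_min (lt_min (hL 1 (by decide)) (hL 2 (by decide)))
        (lt_min (lt_min (hL 3 (by decide)) (hL 4 (by decide))) (hL 5 (by decide)))
    · intro i hi
      fin_cases i
      · exact absurd rfl hi
      · exact (min_le_left _ _).trans (min_le_left _ _)
      · exact (min_le_left _ _).trans (min_le_right _ _)
      · exact (min_le_right _ _).trans ((min_le_left _ _).trans (min_le_left _ _))
      · exact (min_le_right _ _).trans ((min_le_left _ _).trans (min_le_right _ _))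
      · exact (min_le_right _ _).trans (min_le_right _ _)
  have hK : 0 < 2 / m ^ 2 := by positivity
  refine ⟨min (m / 2) (1 / (2 * (2 / m ^ 2))), lt_min (by linarith) (by positivity),
    min (min a₀ (1 - a₀)) (min (min β₀ (1 - β₀)) 1), by
      refine lt_min (lt_min ha0 (by linarith)) (lt_min (lt_min hb0 (by linarith)) one_pos),
    8 * (2 / m ^ 2), ?_⟩
  intro a β t v hN hS hv
  obtain ⟨na, nb', t0, nt⟩ := hN
  have na1 := na.trans_le ((min_le_left _ _).trans (min_le_left _ _))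
  have na2 := na.trans_le ((min_le_left _ _).trans (min_le_right _ _))
  have nb1 := nb'.trans_le ((min_le_right _ _).trans ((min_le_left _ _).trans (min_le_left _ _)))
  have nb2 := nb'.trans_le ((min_le_right _ _).trans ((min_le_left _ _).trans (min_le_right _ _)))
  have nt1 := nt.trans_le ((min_le_right _ _).trans (min_le_right _ _))
  rw [abs_lt] at na1 na2 nb1 nb2
  have hβ0 : 0 < β := by linarith [nb1.1]
  have hβ1 : β < 1 := by linarith [nb2.2]
  have hB := hBD a β t v (by linarith [na1.1]) (by linarith [na2.2]) hβ0 hβ1 t0 nt1 hS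
  have hlow : ∀ i, i ≠ 0 → m / 2 ≤ v i := by
    intro i hi
    have h1 := (hv i).trans_le (min_le_left _ _)
    rw [abs_lt] at h1
    linarith [h1.1, hmL i hi]
  have hu0 := hS.pos 0
  have huδ : v 0 < 1 / (2 * (2 / m ^ 2)) := by
    have h1 := (hv 0).trans_le (min_le_right _ _)
    rw [abs_lt, hL0] at h1
    linarith [h1.2]
  have hKu : 2 / m ^ 2 * v 0 ≤ 1 / 2 := by
    rw [lt_div_iff₀ (by positivity)] at huδ
    linarith
  obtain ⟨c20, c21⟩ := one_cs hm hu0 (hlow 2 (by decide)) (hlow 4 (by decide)) hB.t2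
  obtain ⟨c30, c31⟩ := one_cs hm hu0 (hlow 3 (by decide)) (hlow 5 (by decide)) hB.t3
  have s2 := sum_cs hu0 (hS.pos 2) (hS.pos 4)
  have s3 := sum_cs hu0 (hS.pos 3) (hS.pos 5)
  have h0 : v 0 = t + (1 - t) * (β * (1 - cs (v 2) (v 4) (v 0)) +
      (1 - β) * (1 - cs (v 3) (v 5) (v 0))) := by
    linear_combination hS.e0
  have hd2 := hB.t2
  have hd3 := hB.t3
  have hu2 := hB.u2
  have hu3 := hB.u3
  have hu4 := hB.u4
  have hu5 := hB.u5
  have hp2 := hS.pos 2
  have hp3 := hS.pos 3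
  have hp4 := hS.pos 4
  have hp5 := hS.pos 5
  generalize hk : 2 / m ^ 2 = K at *
  generalize cs (v 2) (v 4) (v 0) = c2 at *
  generalize cs (v 3) (v 5) (v 0) = c3 at *
  generalize cs (v 0) (v 4) (v 2) + cs (v 0) (v 2) (v 4) = A at *
  generalize cs (v 0) (v 5) (v 3) + cs (v 0) (v 3) (v 5) = B at *
  have hKu2 : K * v 0 ^ 2 ≤ v 0 / 2 := by nlinarith
  have htu : t ≤ v 0 := hB.l0
  have h5 : v 0 ≤ 2 * t := by
    have h6 : β * (1 - c2) + (1 - β) * (1 - c3) ≤ K * v 0 ^ 2 := by nlinarith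
    have h7 : 0 ≤ β * (1 - c2) + (1 - β) * (1 - c3) := by
      have := mul_nonneg hβ0.le c20
      have := mul_nonneg (sub_nonneg.2 hβ1.le) c30
      linarith
    nlinarith
  have hsq : v 0 ^ 2 ≤ 4 * t ^ 2 := by nlinarith
  have hKt : K * v 0 ^ 2 ≤ 8 * K * t ^ 2 := by nlinarith [sq_nonneg t, mul_le_mul_of_nonneg_left hsq hK.le]
  have hAB : ∀ (c x y Z : ℝ), 0 ≤ 1 - c → 1 - c ≤ K * v 0 ^ 2 → 0 < x → x ≤ 2 → 0 < y → y ≤ 2 →
      v 0 * Z = (1 - c) * (x + y) → |Z| ≤ 8 * K * t := by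
    intro c x y Z g1 g2 gx gx2 gy gy2 gZ
    have g3 : 0 ≤ Z := by
      by_contra hcon
      push Not at hcon
      have := mul_neg_of_pos_of_neg hu0 hcon
      have := mul_nonneg g1 (by linarith : 0 ≤ x + y)
      linarith
    rw [abs_of_nonneg g3]
    have g4 : v 0 * Z ≤ v 0 * (4 * K * v 0) := by
      have g5 : (1 - c) * (x + y) ≤ K * v 0 ^ 2 * 4 :=
        mul_le_mul g2 (by linarith) (by linarith) (by positivity)
      linarith
    have g6 := le_of_mul_le_mul_left g4 hu0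
    nlinarith
  obtain ⟨d1, d2, d3⟩ := hd2
  obtain ⟨d4, d5, d6⟩ := hd3
  refine ⟨htu, h5, c20, c21.trans hKt, c30, c31.trans hKt, ?_, ?_, ?_, ?_⟩
  · rw [abs_le]; constructor <;> linarith
  · rw [abs_le]; constructor <;> linarith
  · exact hAB c2 (v 2) (v 4) A c20 c21 hp2 hu2 hp4 hu4 s2
  · exact hAB c3 (v 3) (v 5) B c30 c31 hp3 hu3 hp5 hu5 s3

end Pool.Agent.Helper36.EIN2
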